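import Mathlib

/-!
# `𝔾_Y` and the finite state wreath power of a nonabelian finite group `Y`

For every nonabelian finite group `Y`, neither `𝔾_Y` nor `W_Y` (nor the group of all automorphisms
of the tree `Y^*`) contains a subgroup isomorphic to `Y ≀ ℤ`; in particular `𝔾_Y` is not isomorphic
to `Y ≀ ℤ`. The proof is by residual finiteness.
-/

namespace Pool.Agent.Results.MP_e17fb9_al.NonabelianFails

universe u

variable (Y : Type u) [Group Y]

/-! ### The lamplighter group -/

/-- The group `⊕_{n ∈ ℤ} Y` of the functions `ℤ → Y` with finite support. -/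
def Lamps : Subgroup (ℤ → Y) where
  carrier := {f | (Function.mulSupport f).Finite}
  one_mem' := by
    show (Function.mulSupport (1 : ℤ → Y)).Finite
    rw [Function.mulSupport_one]
    exact Set.finite_empty
  mul_mem' := by
    intro f g hf hg
    exact (hf.union hg).subset (Function.mulSupport_mul f g)
  inv_mem' := by
    intro f hf
    show (Function.mulSupport f⁻¹).Finite
    rw [Function.mulSupport_inv]
    exact hf

/-- The shift of the coordinates by `n`. -/
def shiftFun (n : ℤ) (f : Lamps Y) : Lamps Y :=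
  ⟨fun i => f.1 (i - n), by
    have h : (Function.mulSupport f.1).Finite := f.2
    refine (h.image (fun i => i + n)).subset ?_
    intro i hi
    exact ⟨i - n, hi, by ring⟩⟩

/-- The shift of the coordinates by `n`, as an automorphism. -/
def shiftAut (n : ℤ) : MulAut (Lamps Y) where
  toFun := shiftFun Y n
  invFun := shiftFun Y (-n)
  left_inv := by
    intro f
    apply Subtype.ext
    funext i
    show f.1 (i - -n - n) = f.1 i
    rw [show i - -n - n = i by ring]
  right_inv := by
    intro f
    apply Subtype.ext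
    funext i
    show f.1 (i - n - -n) = f.1 i
    rw [show i - n - -n = i by ring]
  map_mul' := by
    intro f g
    rfl

/-- The action of `ℤ` by shifting the coordinates. -/
def shift : Multiplicative ℤ →* MulAut (Lamps Y) where
  toFun n := shiftAut Y n.toAdd
  map_one' := by
    ext f i
    show f.1 (i - 0) = f.1 i
    rw [sub_zero]
  map_mul' := by
    intro m n
    ext f i
    show f.1 (i - (m.toAdd + n.toAdd)) = f.1 (i - m.toAdd - n.toAdd)
    rw [show i - (m.toAdd + n.toAdd) = i - m.toAdd - n.toAdd by ring]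

/-- The lamplighter group `Y ≀ ℤ = (⊕_{n ∈ ℤ} Y) ⋊ ℤ`. -/
abbrev Wreath : Type u := Lamps Y ⋊[shift Y] Multiplicative ℤ

/-! ### The automata -/

variable {Y}

/-- The map of the state `a_i` of the automaton `𝒜_Y`. -/
def act : Y → List Y → List Y
  | _, [] => []
  | i, j :: w => (i * j) :: act (j⁻¹ * i) w

lemma act_bijective (i : Y) : Function.Bijective (act i) := by
  constructor
  · intro v w
    induction v generalizing i w with
    | nil =>
      intro h
      cases w with
      | nil => rfl
      | cons j w => exact absurd h (by simp [act])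
    | cons j v ih =>
      intro h
      cases w with
      | nil => exact absurd h (by simp [act])
      | cons j' w =>
        simp only [act, List.cons.injEq, mul_right_inj] at h
        obtain ⟨rfl, h⟩ := h
        rw [ih _ h]
  · intro w
    induction w generalizing i with
    | nil => exact ⟨[], rfl⟩
    | cons j w ih =>
      obtain ⟨v, hv⟩ := ih ((i⁻¹ * j)⁻¹ * i)
      exact ⟨(i⁻¹ * j) :: v, by simp only [act, hv]; rw [mul_inv_cancel_left]⟩

/-- The generator `a_i` of `𝔾_Y`. -/
noncomputable def gen (i : Y) : Equiv.Perm (List Y) := Equiv.ofBijective (act i) (act_bijective i)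

variable (Y) in
/-- The group `𝔾_Y` generated by the `a_i`. -/
def GG : Subgroup (Equiv.Perm (List Y)) := Subgroup.closure (Set.range gen)

/-- The map of the state `s` of the automaton over `Y` with the transitions `δ` in which the output
map of the state `s` is the left multiplication by `g s`. -/
def run {S : Type} (δ : S → Y → S) (g : S → Y) : S → List Y → List Y
  | _, [] => []
  | s, y :: w => (g s * y) :: run δ g (δ s y) w

/-- `σ` belongs to the finite state wreath power `W_Y`. -/
def InW (σ : List Y → List Y) : Prop :=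
  ∃ (S : Type) (_ : Finite S) (δ : S → Y → S) (g : S → Y) (s : S), σ = run δ g s

lemma length_run {S : Type} (δ : S → Y → S) (g : S → Y) (s : S) (w : List Y) :
    (run δ g s w).length = w.length := by
  induction w generalizing s with
  | nil => rfl
  | cons y w ih => simp [run, ih]

lemma length_act (i : Y) (w : List Y) : (act i w).length = w.length := by
  induction w generalizing i with
  | nil => rfl
  | cons y w ih => simp [act, ih]

lemma length_GG {σ : Equiv.Perm (List Y)} (h : σ ∈ GG Y) : ∀ w, (σ w).length = w.length := by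
  induction h using Subgroup.closure_induction with
  | mem σ h =>
    obtain ⟨i, rfl⟩ := h
    exact length_act i
  | one => intro w; rfl
  | mul σ τ _ _ h1 h2 =>
    intro w
    rw [Equiv.Perm.mul_apply, h1, h2]
  | inv σ _ h =>
    intro w
    have := h (σ⁻¹ w)
    rw [← Equiv.Perm.mul_apply, mul_inv_cancel, Equiv.Perm.one_apply] at this
    exact this.symm

/-! ### The argument -/

/-- the lamp `y` at the position `n` -/
noncomputable def lamp (y : Y) (n : ℤ) : Lamps Y := by
  classical
  exact ⟨Pi.mulSingle n y, (Set.finite_singleton n).subset Pi.mulSupport_mulSingle_subset⟩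

lemma lamp_comm (a b : Y) {n : ℤ} (hn : n ≠ 0) : lamp a n * lamp b 0 = lamp b 0 * lamp a n := by
  classical
  apply Subtype.ext
  show (Pi.mulSingle n a : ℤ → Y) * Pi.mulSingle 0 b = Pi.mulSingle 0 b * Pi.mulSingle n a
  exact Pi.mulSingle_commute (f := fun _ : ℤ => Y) hn a b

lemma shift_lamp (a : Y) (n : ℤ) : shift Y (Multiplicative.ofAdd n) (lamp a 0) = lamp a n := by
  classical
  apply Subtype.ext
  funext i
  show (Pi.mulSingle 0 a : ℤ → Y) (i - n) = (Pi.mulSingle n a : ℤ → Y) i
  by_cases h : i = n
  · subst h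
    simp
  · rw [Pi.mulSingle_eq_of_ne h, Pi.mulSingle_eq_of_ne (by omega)]

/-- There is no injective homomorphism from `Y ≀ ℤ` to the group of the permutations of `Y^*` that
preserve the length. -/
theorem not_injective [Finite Y] {a b : Y} (hab : a * b ≠ b * a)
    (f : Wreath Y →* Equiv.Perm (List Y)) (hlen : ∀ x w, (f x w).length = w.length) :
    ¬ Function.Injective f := by
  classical
  intro hinj
  set t : Wreath Y := SemidirectProduct.inr (Multiplicative.ofAdd (1 : ℤ)) with ht
  set A : Wreath Y := SemidirectProduct.inl (lamp a 0) with hA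
  set B : Wreath Y := SemidirectProduct.inl (lamp b 0) with hB
  -- `A` and `B` do not commute
  have h1 : A * B ≠ B * A := by
    intro h
    rw [hA, hB, ← map_mul, ← map_mul] at h
    have h2 := SemidirectProduct.inl_injective h
    have h3 := congrFun (congrArg Subtype.val h2) 0
    apply hab
    have h4 : (Pi.mulSingle 0 a : ℤ → Y) 0 * (Pi.mulSingle 0 b : ℤ → Y) 0 =
      (Pi.mulSingle 0 b : ℤ → Y) 0 * (Pi.mulSingle 0 a : ℤ → Y) 0 := h3
    simpa using h4
  have h2 : f (A * B) ≠ f (B * A) := fun h => h1 (hinj h)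
  obtain ⟨w, hw⟩ : ∃ w, f (A * B) w ≠ f (B * A) w := by
    by_contra! h
    exact h2 (Equiv.ext h)
  -- the level of `w`
  set X : Set (List Y) := {v | v.length = w.length} with hX
  have hXfin : Finite X := List.finite_length_eq Y w.length
  -- a power of `t` is trivial on the level
  set τ : Equiv.Perm X := (f t).subtypePerm (fun v => by
    show (f t v).length = w.length ↔ v.length = w.length
    rw [hlen]) with hτ
  have hpow : ∀ (k : ℕ) (v : X), ((τ ^ k) v : List Y) = (f t ^ k) v := by
    intro k
    induction k with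
    | zero => intro v; rfl
    | succ k ih =>
      intro v
      rw [pow_succ, pow_succ, Equiv.Perm.mul_apply, Equiv.Perm.mul_apply, ih]
      rfl
  obtain ⟨N, hN, hτN⟩ : ∃ N : ℕ, 0 < N ∧ τ ^ N = 1 :=
    ⟨Nat.card (Equiv.Perm X), Nat.card_pos, pow_card_eq_one'⟩
  have hfix : ∀ v : List Y, v.length = w.length → f (t ^ N) v = v := by
    intro v hv
    have := hpow N ⟨v, hv⟩
    rw [hτN] at this
    rw [map_pow]
    exact this.symm
  -- the conjugate of `A` by `t ^ N` commutes with `B`
  have ht' : ∀ k : ℕ, t ^ k = SemidirectProduct.inr (Multiplicative.ofAdd (k : ℤ)) := by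
    intro k
    rw [ht, ← map_pow, ← ofAdd_nsmul]
    simp
  have hconj : t ^ N * A * (t ^ N)⁻¹ = SemidirectProduct.inl (lamp a N) := by
    rw [ht', ← map_inv, hA, ← SemidirectProduct.inl_aut, shift_lamp]
  have hcomm : (t ^ N * A * (t ^ N)⁻¹) * B = B * (t ^ N * A * (t ^ N)⁻¹) := by
    rw [hconj, hB, ← map_mul, ← map_mul, lamp_comm a b (by exact_mod_cast hN.ne')]
  -- on the level the conjugate is `A`
  have hinv : ∀ v : List Y, v.length = w.length → (f (t ^ N))⁻¹ v = v := by
    intro v hv
    rw [Equiv.Perm.inv_eq_iff_eq]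
    exact (hfix v hv).symm
  have hcA : ∀ v : List Y, v.length = w.length → f (t ^ N * A * (t ^ N)⁻¹) v = f A v := by
    intro v hv
    rw [map_mul, map_mul, map_inv, Equiv.Perm.mul_apply, Equiv.Perm.mul_apply, hinv v hv,
      hfix _ (by rw [hlen, hv])]
  have h3 := congrArg (fun x => f x w) hcomm
  simp only [map_mul (f := f) (x := t ^ N * A * (t ^ N)⁻¹) (y := B),
    map_mul (f := f) (x := B) (y := t ^ N * A * (t ^ N)⁻¹), Equiv.Perm.mul_apply] at h3
  rw [hcA _ (hlen B w), hcA _ rfl] at h3
  apply hw
  rw [map_mul, map_mul, Equiv.Perm.mul_apply, Equiv.Perm.mul_apply]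
  exact h3

/-- **Both questions have a negative answer, for every nonabelian finite group**: if `Y` is a
nonabelian finite group, then `𝔾_Y` is not isomorphic to `Y ≀ ℤ`, and it does not even contain a
subgroup isomorphic to `Y ≀ ℤ`; and `W_Y` contains no subgroup isomorphic to `Y ≀ ℤ`. In
particular both questions have a negative answer. -/
theorem result :
    (∀ (Y : Type u) [Group Y] [Finite Y], (∃ a b : Y, a * b ≠ b * a) →
      ¬ Nonempty (GG Y ≃* Wreath Y) ∧
      (¬ ∃ f : Wreath Y →* GG Y, Function.Injective f) ∧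
      ¬ ∃ f : Wreath Y →* Equiv.Perm (List Y), Function.Injective f ∧ ∀ x, InW (f x)) ∧
    (¬ ∀ (Y : Type u) [Group Y] [Finite Y], 2 ≤ Nat.card Y → Nonempty (GG Y ≃* Wreath Y)) ∧
    (¬ ∀ (Y : Type u) [Group Y] [Finite Y], 2 ≤ Nat.card Y →
      ∃ f : Wreath Y →* Equiv.Perm (List Y), Function.Injective f ∧ ∀ x, InW (f x)) := by
  have key : ∀ (Y : Type u) [Group Y] [Finite Y], (∃ a b : Y, a * b ≠ b * a) →
      ¬ Nonempty (GG Y ≃* Wreath Y) ∧
      (¬ ∃ f : Wreath Y →* GG Y, Function.Injective f) ∧
      ¬ ∃ f : Wreath Y →* Equiv.Perm (List Y), Function.Injective f ∧ ∀ x, InW (f x) := by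
    intro Y _ _ ⟨a, b, hab⟩
    have h1 : ¬ ∃ f : Wreath Y →* GG Y, Function.Injective f := by
      rintro ⟨f, hf⟩
      refine not_injective hab ((GG Y).subtype.comp f) (fun x w => length_GG (f x).2 w) ?_
      exact (GG Y).subtype_injective.comp hf
    refine ⟨?_, h1, ?_⟩
    · rintro ⟨e⟩
      exact h1 ⟨e.symm.toMonoidHom, e.symm.injective⟩
    · rintro ⟨f, hf, hW⟩
      refine not_injective hab f (fun x w => ?_) hf
      obtain ⟨S, _, δ, g, s, h⟩ := hW x
      rw [h]
      exact length_run δ g s w
  have hS3 : ∃ a b : ULift.{u} (Equiv.Perm (Fin 3)), a * b ≠ b * a := by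
    refine ⟨⟨Equiv.swap 0 1⟩, ⟨Equiv.swap 1 2⟩, ?_⟩
    intro h
    have h2 := congrArg ULift.down h
    revert h2
    show ¬ (Equiv.swap (0 : Fin 3) 1 * Equiv.swap 1 2 = Equiv.swap 1 2 * Equiv.swap 0 1)
    decide
  have hcard : 2 ≤ Nat.card (ULift.{u} (Equiv.Perm (Fin 3))) := by
    rw [Nat.card_ulift, Nat.card_eq_fintype_card, Fintype.card_perm]
    decide
  exact ⟨key, fun h => (key _ hS3).1 (h _ hcard), fun h => (key _ hS3).2.2 (h _ hcard)⟩

end Pool.Agent.Results.MP_e17fb9_al.NonabelianFails
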